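import Mathlib

/-!
# MP_8c6d5c_co : a connected binary matroid whose Penrose polynomial has the double root `1`

The binary matroid on ten elements whose cycle space is spanned by the five words with the binary
representations `961, 66, 804, 616, 80` is connected, its Penrose polynomial is not zero, and it is
divisible by `(λ - 1)^2`.
-/

set_option autoImplicit false

open Polynomial

namespace Pool.Agent.Results.MP_8c6d5c_co.PenroseDoubleRoot

/-! ### Definitions -/

section Definitions

variable {E : Type} [Fintype E] [DecidableEq E]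

/-- The indicator vector of `A` (subsets of `E` are identified with vectors over `GF(2)`). -/
def ind (A : Finset E) : E → ZMod 2 := fun e => if e ∈ A then 1 else 0

/-- The cocycle space: the vectors which are orthogonal to all cycles. -/
def cocycle (C : Submodule (ZMod 2) (E → ZMod 2)) : Submodule (ZMod 2) (E → ZMod 2) where
  carrier := {k | ∀ d ∈ C, ∑ e, k e * d e = 0}
  zero_mem' := by
    intro d _
    simp
  add_mem' := by
    intro a b ha hb d hd
    simp only [Pi.add_apply, add_mul, Finset.sum_add_distrib, ha d hd, hb d hd, add_zero]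
  smul_mem' := by
    intro r a ha d hd
    simp only [Pi.smul_apply, smul_eq_mul, mul_assoc, ← Finset.mul_sum, ha d hd, mul_zero]

/-- The bicycle space of `A`: the cycles `c` such that `c ∩ A` is a cocycle. -/
def bicycle (C : Submodule (ZMod 2) (E → ZMod 2)) (A : Finset E) :
    Submodule (ZMod 2) (E → ZMod 2) where
  carrier := {c | c ∈ C ∧ ind A * c ∈ cocycle C}
  zero_mem' := ⟨C.zero_mem, by rw [mul_zero]; exact (cocycle C).zero_mem⟩
  add_mem' := by
    intro a b ha hb
    exact ⟨C.add_mem ha.1 hb.1, by rw [mul_add]; exact (cocycle C).add_mem ha.2 hb.2⟩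
  smul_mem' := by
    intro r a ha
    exact ⟨C.smul_mem r ha.1, by rw [mul_smul_comm]; exact (cocycle C).smul_mem r ha.2⟩

/-- The Penrose polynomial of the binary matroid with cycle space `C`. -/
noncomputable def penrose (C : Submodule (ZMod 2) (E → ZMod 2)) : ℤ[X] :=
  ∑ A : Finset E, (-1) ^ A.card * X ^ Module.finrank (ZMod 2) (bicycle C A)

/-- The binary matroid with cycle space `C` is connected: the ground set is not empty, and there is
no partition `E = E₁ ⊔ E₁ᶜ` into nonempty parts such that the cycles are exactly the sums of a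
cycle contained in `E₁` and a cycle contained in `E₁ᶜ`. -/
def Connected (C : Submodule (ZMod 2) (E → ZMod 2)) : Prop :=
  Nonempty E ∧ ∀ E₁ : Finset E, E₁.Nonempty → E₁ᶜ.Nonempty →
    ¬ ∀ c, c ∈ C ↔ ∃ c₁ ∈ C, ∃ c₂ ∈ C, (∀ e, e ∉ E₁ → c₁ e = 0) ∧ (∀ e, e ∉ E₁ᶜ → c₂ e = 0) ∧
      c = c₁ + c₂

end Definitions

/-! ### The code -/

/-- The codewords as natural numbers. -/
def cwl : List ℕ := [0, 961, 66, 899, 804, 229, 870, 167, 616, 425, 554, 491, 332, 653, 270, 719, 80, 913, 18, 979, 884, 181, 822, 247, 568, 505, 634, 443, 284, 733, 350, 671]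

/-- The codeword with the number `x`. -/
def cw (x : ℕ) : ℕ := cwl.getD x 0

/-- The word of the natural number `k`. -/
def word (k : ℕ) : Fin 10 → ZMod 2 := fun i => if k.testBit i then 1 else 0

/-- The `k`-th bit is the parity of the number of ones of `k`. -/
def parTab : ℕ := 74146578472109212997136511361482254487891641386702620145716156204378150869765806841403385319857558565549512234915555076261584853249966913297281241601813858394614116897041089993247811088911534355298428851353473257124296480147861272197456166579083811387730393363010282273585299534106637649680409542459252107670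

/-- The `k`-th bit says if `k` is a codeword. -/
def memTab : ℕ := 5109370683036905517907723699409331509218671231955898826878717477780763349508172644922589104761750499699273544778417682205194765708172516360508864271225113440804591957231347002539390325884032078770568603742055350642385882487965081611833239278393974046246856618324611033478662495734669507769401345

/-- Parity. -/
def par (k : ℕ) : Bool := parTab.testBit k

theorem par_spec : ∀ k : Fin 1024, (∑ i : Fin 10, word k i) = if par k then 1 else 0 := by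
  decide +kernel

theorem memTab_spec : ∀ k : Fin 1024, memTab.testBit k = decide (k.val ∈ cwl) := by
  decide +kernel

theorem cw_lt : ∀ x : Fin 32, cw x < 1024 := by decide +kernel

theorem cw_xor : ∀ x y : Fin 32, cw x ^^^ cw y = cw (x.val ^^^ y.val) := by decide +kernel

theorem xor_lt : ∀ x y : Fin 32, x.val ^^^ y.val < 32 := by decide +kernel

theorem mem_cwl : ∀ x : Fin 32, cw x ∈ cwl := by decide +kernel

theorem cwl_spec : ∀ k ∈ cwl, ∃ x : Fin 32, k = cw x := by decide +kernel

theorem cw_inj : ∀ x y : Fin 32, cw x = cw y → x = y := by decide +kernel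

theorem word_xor (a b : ℕ) : word (a ^^^ b) = word a + word b := by
  funext i
  simp only [word, Pi.add_apply, Nat.testBit_xor]
  cases a.testBit i <;> cases b.testBit i <;> decide

theorem word_and (a b : ℕ) : word (a &&& b) = word a * word b := by
  funext i
  simp only [word, Pi.mul_apply, Nat.testBit_and]
  cases a.testBit i <;> cases b.testBit i <;> decide

theorem word_inj {a b : ℕ} (ha : a < 1024) (hb : b < 1024) (h : word a = word b) : a = b := by
  apply Nat.eq_of_testBit_eq
  intro i
  by_cases hi : i < 10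
  · have h1 := congrFun h ⟨i, hi⟩
    simp only [word] at h1
    cases h2 : a.testBit i <;> cases h3 : b.testBit i <;> simp_all
  · push Not at hi
    have h4 : (1024 : ℕ) ≤ 2 ^ i := by
      calc (1024 : ℕ) = 2 ^ 10 := by norm_num
        _ ≤ 2 ^ i := Nat.pow_le_pow_right (by norm_num) hi
    rw [Nat.testBit_lt_two_pow (ha.trans_le h4), Nat.testBit_lt_two_pow (hb.trans_le h4)]

/-- The cycle space: a code of length `10` and dimension `5`. -/
def C : Submodule (ZMod 2) (Fin 10 → ZMod 2) where
  carrier := {v | ∃ x : Fin 32, v = word (cw x)}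
  zero_mem' := ⟨0, by decide⟩
  add_mem' := by
    rintro a b ⟨x, rfl⟩ ⟨y, rfl⟩
    exact ⟨⟨x.val ^^^ y.val, xor_lt x y⟩, by rw [← word_xor, cw_xor]⟩
  smul_mem' := by
    rintro r a ⟨x, rfl⟩
    fin_cases r
    · have h0 : word (cw ((0 : Fin 32) : ℕ)) = 0 := by decide
      refine ⟨0, ?_⟩
      change (0 : ZMod 2) • word (cw x) = word (cw ((0 : Fin 32) : ℕ))
      rw [zero_smul, h0]
    · exact ⟨x, by
        change (1 : ZMod 2) • word (cw x) = word (cw x)
        rw [one_smul]⟩

theorem mem_C {v : Fin 10 → ZMod 2} : v ∈ C ↔ ∃ x : Fin 32, v = word (cw x) := Iff.rfl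

/-- The subset of `Fin 10` with the number `m`. -/
def f (m : ℕ) : Finset (Fin 10) := Finset.univ.filter fun i => m.testBit i

theorem ind_f (m : ℕ) : ind (f m) = word m := by
  funext i
  simp [ind, f, word]

theorem par_spec' {k : ℕ} (hk : k < 1024) : (∑ i : Fin 10, word k i) = if par k then 1 else 0 :=
  par_spec ⟨k, hk⟩

/-- The pairing of two words. -/
theorem pair_eq {a b : ℕ} (ha : a < 1024) :
    (∑ i, word a i * word b i) = if par (a &&& b) then 1 else 0 := by
  rw [← par_spec' (lt_of_le_of_lt Nat.and_le_left ha), word_and]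
  rfl

theorem and5 : ∀ y : Fin 32, y.val = (y.val &&& 1) ^^^ ((y.val &&& 2) ^^^ ((y.val &&& 4) ^^^
    ((y.val &&& 8) ^^^ (y.val &&& 16)))) := by decide +kernel

theorem and5' : ∀ y : Fin 32, ((y.val &&& 1) = 0 ∨ (y.val &&& 1) = 1) ∧
    ((y.val &&& 2) = 0 ∨ (y.val &&& 2) = 2) ∧ ((y.val &&& 4) = 0 ∨ (y.val &&& 4) = 4) ∧
    ((y.val &&& 8) = 0 ∨ (y.val &&& 8) = 8) ∧ ((y.val &&& 16) = 0 ∨ (y.val &&& 16) = 16) := by
  decide +kernel

theorem mem_cocycle {k : Fin 10 → ZMod 2} : k ∈ cocycle C ↔
    (∑ i, k i * word (cw 1) i = 0) ∧ (∑ i, k i * word (cw 2) i = 0) ∧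
    (∑ i, k i * word (cw 4) i = 0) ∧ (∑ i, k i * word (cw 8) i = 0) ∧
    (∑ i, k i * word (cw 16) i = 0) := by
  constructor
  · intro h
    exact ⟨h _ ⟨1, rfl⟩, h _ ⟨2, rfl⟩, h _ ⟨4, rfl⟩, h _ ⟨8, rfl⟩, h _ ⟨16, rfl⟩⟩
  · rintro ⟨h1, h2, h4, h8, h16⟩ d ⟨y, rfl⟩
    have hx : ∀ a b : ℕ, a < 32 → b < 32 → (∑ i, k i * word (cw a) i = 0) →
        (∑ i, k i * word (cw b) i = 0) → (∑ i, k i * word (cw (a ^^^ b)) i = 0) := by
      intro a b ha hb h5 h6
      have h7 := cw_xor ⟨a, ha⟩ ⟨b, hb⟩
      simp only at h7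
      rw [← h7, word_xor]
      simp only [Pi.add_apply, mul_add, Finset.sum_add_distrib, h5, h6, add_zero]
    have h0 : ∑ i, k i * word (cw 0) i = 0 := by
      have : word (cw 0) = 0 := by decide
      rw [this]
      simp
    obtain ⟨a1, a2, a4, a8, a16⟩ := and5' y
    have b1 : ∑ i, k i * word (cw (y.val &&& 1)) i = 0 := by
      rcases a1 with h | h
      · rw [h]
        exact h0
      · rw [h]
        exact h1
    have b2 : ∑ i, k i * word (cw (y.val &&& 2)) i = 0 := by
      rcases a2 with h | h
      · rw [h]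
        exact h0
      · rw [h]
        exact h2
    have b4 : ∑ i, k i * word (cw (y.val &&& 4)) i = 0 := by
      rcases a4 with h | h
      · rw [h]
        exact h0
      · rw [h]
        exact h4
    have b8 : ∑ i, k i * word (cw (y.val &&& 8)) i = 0 := by
      rcases a8 with h | h
      · rw [h]
        exact h0
      · rw [h]
        exact h8
    have b16 : ∑ i, k i * word (cw (y.val &&& 16)) i = 0 := by
      rcases a16 with h | h
      · rw [h]
        exact h0
      · rw [h]
        exact h16
    have hl : ∀ c, c < 32 → (y.val &&& c) < 32 := fun c hc => lt_of_le_of_lt Nat.and_le_right hc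
    have hxl : ∀ a b, a < 32 → b < 32 → a ^^^ b < 32 := fun a b ha hb => xor_lt ⟨a, ha⟩ ⟨b, hb⟩
    have c1 := hx _ _ (hl 8 (by norm_num)) (by have := y.2; exact lt_of_le_of_lt Nat.and_le_left this)
      b8 b16
    have l1 := hxl _ _ (hl 8 (by norm_num)) (lt_of_le_of_lt Nat.and_le_left y.2 :
      (y.val &&& 16) < 32)
    have c2 := hx _ _ (hl 4 (by norm_num)) l1 b4 c1
    have l2 := hxl _ _ (hl 4 (by norm_num)) l1
    have c3 := hx _ _ (hl 2 (by norm_num)) l2 b2 c2
    have l3 := hxl _ _ (hl 2 (by norm_num)) l2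
    have c4 := hx _ _ (hl 1 (by norm_num)) l3 b1 c3
    rw [← and5 y] at c4
    exact c4

/-- The test for membership in the bicycle space. -/
def test (m x : ℕ) : Bool :=
  let c := m &&& cw x
  !(par (c &&& 961) || par (c &&& 66) || par (c &&& 804) || par (c &&& 616) || par (c &&& 80))

theorem test_spec {m : ℕ} (hm : m < 1024) (x : Fin 32) :
    test m x = true ↔ word (cw x) ∈ bicycle C (f m) := by
  have h1 : word (cw x) ∈ bicycle C (f m) ↔ word (m &&& cw x) ∈ cocycle C := by
    have e : ind (f m) * word (cw x) = word (m &&& cw x) := by rw [ind_f, word_and]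
    rw [← e]
    exact ⟨fun h => h.2, fun h => ⟨⟨x, rfl⟩, h⟩⟩
  have hlt : m &&& cw x < 1024 := lt_of_le_of_lt Nat.and_le_left hm
  rw [h1, mem_cocycle, pair_eq hlt, pair_eq hlt, pair_eq hlt, pair_eq hlt, pair_eq hlt]
  have e1 : cw 1 = 961 := by decide
  have e2 : cw 2 = 66 := by decide
  have e4 : cw 4 = 804 := by decide
  have e8 : cw 8 = 616 := by decide
  have e16 : cw 16 = 80 := by decide
  rw [e1, e2, e4, e8, e16]
  have key : ∀ a b c d e : Bool, (!(a || b || c || d || e)) = true ↔
      ((if a then (1 : ZMod 2) else 0) = 0 ∧ (if b then (1 : ZMod 2) else 0) = 0 ∧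
      (if c then (1 : ZMod 2) else 0) = 0 ∧ (if d then (1 : ZMod 2) else 0) = 0 ∧
      (if e then (1 : ZMod 2) else 0) = 0) := by decide
  exact key _ _ _ _ _

/-- A sum, for kernel computations. -/
def sumTo {M : Type} [AddMonoid M] : ℕ → (ℕ → M) → M
  | 0, _ => 0
  | n + 1, g => sumTo n g + g n

theorem sumTo_eq {M : Type} [AddCommMonoid M] (n : ℕ) (g : ℕ → M) :
    sumTo n g = ∑ i ∈ Finset.range n, g i := by
  induction n with
  | zero => rfl
  | succ n ih => rw [sumTo, ih, Finset.sum_range_succ]

/-- The number of the elements of the bicycle space. -/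
def cnt (m : ℕ) : ℕ := sumTo 32 fun x => if test m x then 1 else 0

theorem cnt_eq {m : ℕ} (hm : m < 1024) :
    cnt m = 2 ^ Module.finrank (ZMod 2) (bicycle C (f m)) := by
  have h1 : Nat.card (bicycle C (f m)) = 2 ^ Module.finrank (ZMod 2) (bicycle C (f m)) := by
    rw [Module.natCard_eq_pow_finrank (K := ZMod 2)]
    simp
  rw [← h1]
  have h2 : Nat.card {x : Fin 32 // test m x = true} = Nat.card (bicycle C (f m)) := by
    apply Nat.card_congr
    refine Equiv.ofBijective (fun x => ⟨word (cw x.1), (test_spec hm x.1).mp x.2⟩) ⟨?_, ?_⟩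
    · rintro ⟨x, hx⟩ ⟨y, hy⟩ hxy
      simp only [Subtype.mk.injEq] at hxy ⊢
      exact cw_inj x y (word_inj (cw_lt x) (cw_lt y) hxy)
    · rintro ⟨v, hv⟩
      obtain ⟨x, rfl⟩ := hv.1
      exact ⟨⟨x, (test_spec hm x).mpr hv⟩, rfl⟩
  rw [← h2, Nat.card_eq_fintype_card, Fintype.card_subtype, Finset.card_filter, cnt, sumTo_eq,
    Finset.sum_range]

/-- The dimension of the bicycle space. -/
def dg (m : ℕ) : ℕ := (cnt m).log2

theorem finrank_eq {m : ℕ} (hm : m < 1024) :
    Module.finrank (ZMod 2) (bicycle C (f m)) = dg m := by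
  rw [dg, cnt_eq hm, Nat.log2_two_pow]

/-- The sign. -/
def sg (m : ℕ) : ℤ := if par m then -1 else 1

theorem sign_eq {m : ℕ} (hm : m < 1024) : ((-1) ^ (f m).card : ℤ) = sg m := by
  have h1 : ((f m).card : ZMod 2) = if par m then 1 else 0 := by
    rw [← par_spec' hm, f, Finset.card_filter]
    push_cast
    rfl
  unfold sg
  by_cases hp : par m = true
  · rw [if_pos hp] at h1 ⊢
    have h2 : Odd (f m).card := by
      rw [← ZMod.natCast_eq_one_iff_odd]
      exact h1
    exact h2.neg_one_pow
  · rw [if_neg hp] at h1 ⊢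
    have h2 : Even (f m).card := by
      rw [← ZMod.natCast_eq_zero_iff_even]
      exact h1
    exact h2.neg_one_pow

theorem f_bij : Function.Bijective (fun m : Fin 1024 => f m) := by
  rw [Fintype.bijective_iff_injective_and_card]
  constructor
  · intro a b hab
    have h1 : word a = word b := by
      rw [← ind_f, ← ind_f]
      exact congrArg ind hab
    exact Fin.ext (word_inj a.2 b.2 h1)
  · simp

theorem penrose_eq : penrose C = ∑ m : Fin 1024, Polynomial.C (sg m) * X ^ dg m := by
  unfold penrose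
  symm
  refine Fintype.sum_bijective _ f_bij _ _ fun m => ?_
  rw [finrank_eq m.2, ← sign_eq m.2]
  simp

theorem sum_range_mul (g : ℕ → ℤ) (n : ℕ) : ∑ i ∈ Finset.range (32 * n), g i =
    ∑ a ∈ Finset.range n, ∑ b ∈ Finset.range 32, g (32 * a + b) := by
  induction n with
  | zero => rfl
  | succ n ih => rw [mul_add, mul_one, Finset.sum_range_add, ih,
      Finset.sum_range_succ (fun a => ∑ b ∈ Finset.range 32, g (32 * a + b)) n]

/-- Sums over `Fin 1024` by a double sum. -/
theorem sum_fin (g : ℕ → ℤ) :
    ∑ m : Fin 1024, g m = sumTo 32 fun a => sumTo 32 fun b => g (32 * a + b) := by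
  rw [sumTo_eq]
  simp only [sumTo_eq]
  rw [← sum_range_mul, ← Finset.sum_range (f := g)]

theorem sum_sign : (sumTo 32 fun a => sumTo 32 fun b => sg (32 * a + b)) = 0 := by
  decide +kernel

theorem sum_dg : (sumTo 32 fun a => sumTo 32 fun b => sg (32 * a + b) * dg (32 * a + b)) = 0 := by
  decide +kernel

theorem sum_zero : (sumTo 32 fun a => sumTo 32 fun b =>
    sg (32 * a + b) * (if dg (32 * a + b) = 0 then 1 else 0)) = -16 := by
  decide +kernel

theorem eval_one : (penrose C).eval 1 = 0 := by
  rw [penrose_eq, eval_finsetSum]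
  simp only [eval_mul, eval_C, eval_pow, eval_X, one_pow, mul_one]
  rw [sum_fin (fun m => sg m), sum_sign]

theorem eval_derivative_one : (derivative (penrose C)).eval 1 = 0 := by
  rw [penrose_eq, derivative_sum, eval_finsetSum]
  have h : ∀ m : Fin 1024, (derivative (Polynomial.C (sg m) * X ^ dg m : ℤ[X])).eval 1 =
      sg m * dg m := by
    intro m
    rw [derivative_C_mul, derivative_X_pow]
    simp
  simp only [h]
  rw [sum_fin (fun m => sg m * dg m), sum_dg]

theorem eval_zero : (penrose C).eval 0 = -16 := by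
  rw [penrose_eq, eval_finsetSum]
  have h : ∀ m : Fin 1024, (Polynomial.C (sg m) * X ^ dg m : ℤ[X]).eval 0 =
      sg m * (if dg m = 0 then 1 else 0) := by
    intro m
    simp [zero_pow_eq]
  simp only [h]
  rw [sum_fin (fun m => sg m * (if dg m = 0 then 1 else 0)), sum_zero]

/-! ### Connectedness -/

theorem conn_check : ∀ m : Fin 1024, m.val ≠ 0 → m.val ≠ 1023 →
    ∃ x : Fin 32, memTab.testBit (m.val &&& cw x) = false := by
  decide +kernel

theorem connected : Connected C := by
  refine ⟨⟨0⟩, fun E₁ h1 h2 hdec => ?_⟩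
  obtain ⟨m, rfl⟩ := f_bij.2 E₁
  simp only at h1 h2 hdec
  have hm0 : m.val ≠ 0 := by
    intro h
    rw [h] at h1
    obtain ⟨i, hi⟩ := h1
    simp [f] at hi
  have hm1 : m.val ≠ 1023 := by
    intro h
    rw [h] at h2
    have : f 1023 = Finset.univ := by decide
    rw [this] at h2
    simp at h2
  obtain ⟨x, hx⟩ := conn_check m hm0 hm1
  obtain ⟨c₁, hc₁, c₂, hc₂, hs₁, hs₂, hsum⟩ := (hdec (word (cw x))).mp ⟨x, rfl⟩
  have h3 : c₁ = word (m.val &&& cw x) := by
    rw [word_and, ← ind_f m.val, hsum]
    funext i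
    simp only [Pi.mul_apply, Pi.add_apply, ind]
    by_cases hi : i ∈ f m.val
    · rw [if_pos hi, one_mul, hs₂ i (by simpa using hi), add_zero]
    · rw [if_neg hi, zero_mul, hs₁ i hi]
  obtain ⟨y, hy⟩ := hc₁
  have hlt : m.val &&& cw x < 1024 := lt_of_le_of_lt Nat.and_le_left m.2
  have h4 : m.val &&& cw x = cw y := word_inj hlt (cw_lt y) (h3.symm.trans hy)
  have h5 := memTab_spec ⟨m.val &&& cw x, hlt⟩
  simp only at h5
  rw [hx] at h5
  have h6 := mem_cwl y
  rw [← h4] at h6
  exact absurd h6 (of_decide_eq_false h5.symm)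

/-- **A connected binary matroid whose Penrose polynomial is not zero and has `1` as a multiple
root.** -/
theorem result : ∃ C : Submodule (ZMod 2) (Fin 10 → ZMod 2),
    Connected C ∧ penrose C ≠ 0 ∧ (X - 1) ^ 2 ∣ penrose C := by
  have hne : penrose C ≠ 0 := by
    intro h
    have := eval_zero
    rw [h] at this
    simp at this
  refine ⟨C, connected, hne, ?_⟩
  have h1 : 1 < (penrose C).rootMultiplicity 1 := by
    rw [one_lt_rootMultiplicity_iff_isRoot hne]
    exact ⟨eval_one, eval_derivative_one⟩
  have h2 := (le_rootMultiplicity_iff hne).mp (show 2 ≤ (penrose C).rootMultiplicity 1 from h1)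
  simpa using h2

end Pool.Agent.Results.MP_8c6d5c_co.PenroseDoubleRoot
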